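import Mathlib
import Pool.Prelude.Def_F_862454f0
import Pool.Agent.Helper15.AB.StBV

set_option autoImplicit false

/-! # Project BI (MP_49e2dd_nt): the exceptional set in Q1

THEOREM.  (A) `#{v ≤ X : some admissible (u,v) has v - u ≥ H} ≤ C X log X / H` for all `X ≥ 2`, `H ≥ 1`.
(B) For `0 < ε ≤ 1/100` and large `X`: `#{v ≤ X : some admissible (u,v) has v - u > v^ε} ≤ X^(1 - √(2ε) + 4ε)`.

METHOD.  If `(u,v)` is admissible (`v` large, `v - u ≥ 12`) then there is a prime `p > v - u` and a multiple `m` of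
`p²` in `[u,v]`, and no integer of `[u,v]` has a prime factor `> p` (ST).  For `p ∈ (P, 2P]` write `m = p² r`: the number
`r` avoids `H` residue classes modulo every prime `q ∈ (2P, 8P]`, and Montgomery's large sieve with moduli that are products
of `k` such primes (LS) gives `≪ (X/P)(log X/H)^k` numbers `m`, as long as `P^(2k+2) ≤ 2X` (KM).  For `P > X^(1/4)` use
`k = 0` and the sieve for `v` itself (SM).

Each module XX: prove `theorem hXX : XX` in your own file, `import Pool.Agent.Helper2.BI.St`.  Earlier statements are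
hypotheses of the statement (intro them). -/

namespace Pool.Agent.Helper2.BI

open Finset Filter
open Pool.Agent.Helper15.AB (ee StGA)
open N063b59cf

noncomputable section

/-- exponential sum of a finite set -/
def ES (B : Finset ℕ) (α : ℝ) : ℂ := ∑ n ∈ B, ee (n * α)

/-- the fraction `∑ b q / q` -/
def fr (b : ℕ →₀ ℕ) : ℝ := ∑ q ∈ b.support, (b q : ℝ) / q

/-- numerators for the products of `k` different primes of `S` -/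
def Ix (S : Finset ℕ) (k : ℕ) : Finset (ℕ →₀ ℕ) :=
  (S.finsupp (fun q => range q)).filter (fun b => b.support.card = k)

open Classical in
/-- `m ≤ 2X` is divisible by `p²`, `p ∈ (P, 2P]`, and `m+1, …, m+H` have no prime factor `> 2P` -/
def Mp (X P H : ℕ) : Finset ℕ := (Icc 1 (2 * X)).filter (fun m =>
  (∃ p : ℕ, p.Prime ∧ P < p ∧ p ≤ 2 * P ∧ p ^ 2 ∣ m) ∧
    ∀ j ∈ Icc 1 H, ∀ q : ℕ, q.Prime → 2 * P < q → ¬ q ∣ m + j)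

open Classical in
/-- the same with `m-1, …, m-H` -/
def Mm (X P H : ℕ) : Finset ℕ := (Icc 1 (2 * X)).filter (fun m =>
  (∃ p : ℕ, p.Prime ∧ P < p ∧ p ≤ 2 * P ∧ p ^ 2 ∣ m) ∧
    ∀ j ∈ Icc 1 H, ∀ q : ℕ, q.Prime → 2 * P < q → ¬ q ∣ m - j)

open Classical in
/-- `v ∈ (X, 2X]`, and `v, v-1, …, v-H+1` have no prime factor `q` with `q² > 2X` -/
def Es (X H : ℕ) : Finset ℕ := (Ioc X (2 * X)).filter (fun v =>
  ∀ j < H, ∀ q : ℕ, q.Prime → 2 * X < q ^ 2 → ¬ q ∣ v - j)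

end

/-- L1 (one prime, 80 lines).
PROOF.  For `a < q` let `A_a = ∑_(n ∈ B, n % q = a) ee (n α)`; `A_a = 0` for `a ∈ Om`.  `ES B α = ∑_(a ∈ range q \ Om) A_a`, so
by Cauchy-Schwarz `|ES B α|² ≤ (q - H) ∑_a |A_a|²`.  `ES B (α + c/q) = ∑_a ee (a c/q) A_a` (`ee` has period 1), and by
orthogonality `∑_(c < q) |ES B (α + c/q)|² = q ∑_a |A_a|²`.  So
`∑_(1 ≤ c < q) |ES B (α + c/q)|² ≥ (q/(q-H) - 1) |ES B α|² = H/(q-H) |ES B α|² ≥ (H/q) |ES B α|²`. -/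
def L1 : Prop := ∀ (B Om : Finset ℕ) (q H : ℕ), q.Prime → Om ⊆ range q → Om.card = H → H < q →
  (∀ n ∈ B, n % q ∉ Om) → ∀ α : ℝ,
  (H : ℝ) / q * ‖ES B α‖ ^ 2 ≤ ∑ c ∈ Ico 1 q, ‖ES B (α + c / q)‖ ^ 2

/-- L2 (products of `k` primes, 120 lines).
PROOF.  Induction on `S` (`Finset.induction_on`), for all `k`, `α`.  `k = 0`: `Ix S 0 = {0}`, `fr 0 = 0`.  `S = ∅`, `k + 1`: the left
side is 0.  Step `insert q S`, `q ∉ S`, `k + 1`: `Ix (insert q S) (k+1)` contains the disjoint sets `Ix S (k+1)` and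
`{b + single q c : b ∈ Ix S k, c ∈ Ico 1 q}` (the map `(b, c) ↦ b + single q c` is injective, as `b q = 0` for `b ∈ Ix S k`), and
`fr (b + single q c) = fr b + c/q`.  So the sum is at least
`(|S| choose (k+1)) w^(k+1) |ES B α|² + ∑_(b ∈ Ix S k) w |ES B (α + fr b)|²
≥ ((|S| choose (k+1)) w^(k+1) + w (|S| choose k) w^k) |ES B α|²`. -/
def L2 : Prop := ∀ (B S : Finset ℕ) (w : ℝ), 0 ≤ w → (∀ q ∈ S, q.Prime) →
  (∀ q ∈ S, ∀ α : ℝ, w * ‖ES B α‖ ^ 2 ≤ ∑ c ∈ Ico 1 q, ‖ES B (α + c / q)‖ ^ 2) →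
  ∀ (k : ℕ) (α : ℝ),
  (S.card.choose k : ℝ) * w ^ k * ‖ES B α‖ ^ 2 ≤ ∑ b ∈ Ix S k, ‖ES B (α + fr b)‖ ^ 2

/-- L3 (separation, 100 lines).
PROOF.  `T = supp b ∪ supp b'`, `R = ∏_(q ∈ T) q ≤ Q^(2k)`.  `R (fr b - fr b' - m)` is an integer `z`
(`fr b = ∑_(q ∈ T) b q / q`, and `R/q` is an integer).  If `z = 0`: choose `q` with `b q ≠ b' q` (so `q ∈ T`); all terms of
`∑_(q' ∈ T) (R/q')(b q' - b' q') - R m = 0` with `q' ≠ q` are divisible by `q`, so `q ∣ (R/q)(b q - b' q)`, `q` does not divide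
`R/q` (product of other primes), so `q ∣ b q - b' q`, and `|b q - b' q| < q`, contradiction.  So `|z| ≥ 1`. -/
def L3 : Prop := ∀ (S : Finset ℕ) (k Q : ℕ), (∀ q ∈ S, q.Prime ∧ q ≤ Q) →
  ∀ b ∈ Ix S k, ∀ b' ∈ Ix S k, b ≠ b' → ∀ m : ℤ,
  1 ≤ ((Q : ℝ) ^ k) ^ 2 * |fr b - fr b' - m|

/-- LS (Montgomery's large sieve, 100 lines; uses L1, L2, L3 and `StGA`, which is proved:
`Pool.Agent.Helper15.AB.hGA`).
PROOF.  `B = ∅` is trivial.  `w = H/Q ≤ H/q` (`L1`), `L2` with `α = 0`: `(n choose k) w^k |B|² ≤ ∑_(b ∈ Ix S k) |ES B (fr b)|²`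
(`ES B 0 = |B|`).  `StGA` for the points `Int.fract (fr b)`, `δ = 1/(Q^k)²`, `a n = [n ∈ B]`: `ES B (Int.fract x) = ES B x`; by `L3` the map
`b ↦ Int.fract (fr b)` is injective on `Ix S k` and the points are `δ`-separated modulo 1 (`Q ≥ 1`; if `S = ∅` then `Ix S k` has at
most one element).  So the sum is at most `C (N + Q^(2k)) |B|`.  Divide by `|B|`. -/
def LSc : Prop := ∃ C : ℝ, 0 < C ∧ ∀ (N M k H Q : ℕ) (B S : Finset ℕ), B ⊆ Ioc M (M + N) →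
  1 ≤ Q → (∀ q ∈ S, q.Prime ∧ q ≤ Q ∧ H < q) →
  (∀ q ∈ S, ∃ Om ⊆ range q, Om.card = H ∧ ∀ n ∈ B, n % q ∉ Om) →
  (S.card.choose k : ℝ) * ((H : ℝ) / Q) ^ k * B.card ≤ C * (N + ((Q : ℝ) ^ k) ^ 2)

def LS : Prop := L1 → L2 → L3 → StGA → LSc

/-- CP (primes in `(2P, 8P]`, 60 lines).
PROOF.  `Chebyshev.theta_ge`: `θ(8P) ≥ 8P log 2 - log(8P+1) - 2 √(8P) log(8P)`; `Chebyshev.theta_le_log4_mul_x`: `θ(2P) ≤ 4P log 2`.  So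
`∑_(2P < p ≤ 8P) log p = θ(8P) - θ(2P) ≥ 4P log 2 - o(P) ≥ 2P` for large `P`, and every summand is at most `log (8P) ≤ 2 log P`
for `P ≥ 8`. -/
def CP : Prop := ∃ Y₀ : ℕ, 2 ≤ Y₀ ∧ ∀ P : ℕ, Y₀ ≤ P →
  (P : ℝ) / Real.log P ≤ ((Ioc (2 * P) (8 * P)).filter Nat.Prime).card

/-- KM (main count, 250 lines; uses `LSc`, `CP`).  The constant depends on `k`.
PROOF (for `Mp`; `Mm` is the same).  For a prime `p ∈ (P, 2P]` let `B = {r ≥ 1 : p² r ∈ Mp with this p}`, `B ⊆ Ioc 0 N`,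
`N = 2X/P²` (integer part).  Let `S` = primes of `(2P, 8P]`, `n = |S|`, `Q = 8P`.  For `q ∈ S` (`q ≠ p`, `H ≤ P < q`) and `r ∈ B`, `j ∈ [1, H]`:
`q ∤ p² r + j`, so `r % q` is not in `Om = {the residues -j p^(-2) mod q}`, which has `H` elements.  `LSc`:
`(n choose k)(H/8P)^k |B| ≤ C (2X/P² + 64^k P^(2k)) ≤ C (2 + 2·64^k) X/P²` (`P^(2k+2) ≤ 2X`).  For `P ≥ P₁(k)`: `n ≥ P/log P ≥ 2k`
(`CP`), `(n choose k) ≥ (n+1-k)^k/k! ≥ (n/2)^k/k!` (`Nat.pow_le_choose`), so `|B| ≤ C' (X/P²)(16 log P/H)^k`, `log P ≤ log X`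
(`P² ≤ 2X`).  Sum over at most `P` primes `p`; `m ∈ Mp` is `p² r` for one of them.  For `P < P₁(k)`: `|Mp| ≤ 2X`, and
`X/P ≥ X/P₁`, `log X/H ≥ log 2/P₁`. -/
def KMc : Prop := ∀ k : ℕ, ∃ C : ℝ, 0 < C ∧ ∀ X P H : ℕ, 2 ≤ X → 1 ≤ H → H ≤ P →
  P ^ (2 * k + 2) ≤ 2 * X →
  ((Mp X P H).card : ℝ) ≤ C * (X / P * (Real.log X / H) ^ k) ∧
  ((Mm X P H).card : ℝ) ≤ C * (X / P * (Real.log X / H) ^ k)

def KM : Prop := LSc → CP → KMc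

/-- SM (120 lines; uses `LSc` with `k = 1`, `CP`).
PROOF.  `P = Nat.sqrt (2X)/2 + 1`: primes `q > 2P` have `q² > 2X`; `(8P)² ≤ 200 X`, `P ≤ 2X`.  `S` = primes of `(2P, 8P]`.
Suppose `P ≥ Y₀`.  (a) `H ≤ 2P`: for `v ∈ Es X H` and `q ∈ S`: `v % q ∉ range H` (`q ∣ v - v % q`).  `LSc` with `N = M = X`, `k = 1`,
`Q = 8P`: `n (H/8P) |Es| ≤ 201 C X`, `n ≥ P/log P`: `|Es| ≤ C' X log X/H`.  (b) `2P < H ≤ 8P`: `Es X H ⊆ Es X (2P)`.  (c) `H > 8P`: `S` is not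
empty; for `q ∈ S` `j = v % q < H`, `q ∣ v - j`: `Es X H = ∅`.  For `P < Y₀` (`X` bounded): if `H > 2X` then `Es X H = ∅` (`j = v`, any large
prime `q` divides 0), otherwise `|Es| ≤ X` and `H ≤ 2X` is bounded. -/
def SMc : Prop := ∃ C : ℝ, 0 < C ∧ ∀ X H : ℕ, 2 ≤ X → 1 ≤ H →
  ((Es X H).card : ℝ) ≤ C * (X * Real.log X / H)

def SM : Prop := LSc → CP → SMc

/-- the landed theorem of helper5 (`Pool.Agent.Results.MP_49e2dd_nt.Exponent042.result`) -/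
def E42 : Prop := ∀ᶠ v : ℕ in atTop, ∀ u : ℕ,
    LargestPrimeRepeated u v → ((v - u : ℕ) : ℝ) ≤ (v : ℝ) ^ (21 / 50 : ℝ)

/-- ST (structure of admissible pairs, 150 lines; uses `E42`).
PROOF.  `k = v - u + 1 ≥ 13`, `N = ∏_(Icc u v)`, `p = maxPrimeFac N` (facts in `Pool/Prelude/Def_H_452fe6f9.lean`:
`Nat.prime_maxPrimeFac_of_one_lt`, `Nat.maxPrimeFac_dvd`, `Nat.le_maxPrimeFac`).  `k ≤ v^(21/50) + 1 ≤ v^(43/100)`, `u ≥ v/2`.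
Claim `p > k`.  Otherwise all prime factors of `v choose k` (which divides `N`, `N = k! (v choose k)`) are `≤ k`, each prime power
in its factorisation is `≤ v` (`Nat.factorization_choose_le_log` / `Nat.pow_factorization_choose_le`), so
`v choose k ≤ v^π(k)`, and `π(k) ≤ k/2` for `k ≥ 8` (induction by steps of 2: one of `k+1`, `k+2` is even).  And
`v choose k ≥ (u/k)^k` (`Nat.pow_le_choose`, `k! ≤ k^k`), so `(u/k)² ≤ v`, but `(u/k)² ≥ (v^(57/100)/2)² = v^(1.14)/4`: false for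
large `v`.  So `p > k > v - u`; at most one element `m` of `[u,v]` is divisible by `p`, so `p² ∣ N` gives `p² ∣ m` (the product of the
others is coprime to `p`), `p² ≤ m ≤ v`.  Every prime `q ∣ n ∈ [u,v]` divides `N`, so `q ≤ p`. -/
def STc : Prop := ∃ V₀ : ℕ, ∀ v : ℕ, V₀ ≤ v → ∀ u : ℕ, LargestPrimeRepeated u v → 12 ≤ v - u →
  ∃ p m : ℕ, p.Prime ∧ u ≤ m ∧ m ≤ v ∧ p ^ 2 ∣ m ∧ v - u < p ∧ p ^ 2 ≤ v ∧
    ∀ n, u ≤ n → n ≤ v → ∀ q : ℕ, q.Prime → q ∣ n → q ≤ p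

def ST : Prop := E42 → STc

/-- CV (covering, 120 lines; uses `STc`).
PROOF.  `p`, `m` from `STc`.  `i` with `2^i < p ≤ 2^(i+1)`; `4^i < p² ≤ v ≤ 2X`.  `j` with `2^(j+1) ≤ v - u < 2^(j+2)`
(`j + 1 = Nat.log 2 (v - u)`); `2^(j+1) ≤ v - u < p ≤ 2^(i+1)` gives `j ≤ i`.  `v ∈ Es X (2^(j+1))`: for `j' < 2^(j+1)` we have
`v - j' ∈ [u,v]`, a prime `q ∣ v - j'` is `≤ p` and `p² ≤ v ≤ 2X`.  `(v - m) + (m - u) ≥ 2^(j+1)`: if `v - m ≥ 2^j` then `m ∈ Mp`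
(`m + j' ∈ [u,v]` for `j' ≤ 2^j`), otherwise `m - u ≥ 2^j` and `m ∈ Mm`.  `u ≥ 1` is part of admissibility. -/
def CVc : Prop := ∃ V₀ : ℕ, ∀ X : ℕ, V₀ ≤ X → ∀ v ∈ Ioc X (2 * X), ∀ u : ℕ,
  LargestPrimeRepeated u v → 12 ≤ v - u →
  ∃ i j : ℕ, j ≤ i ∧ 4 ^ i < 2 * X ∧ v - u < 2 ^ (j + 2) ∧ v ∈ Es X (2 ^ (j + 1)) ∧
    ∃ m, (m ∈ Mp X (2 ^ i) (2 ^ j) ∨ m ∈ Mm X (2 ^ i) (2 ^ j)) ∧ m ≤ v ∧ v ≤ m + 2 ^ (j + 2)

def CV : Prop := STc → CVc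

/-- NB (numbers, 200 lines).  `P = 2^i`, `H = 2^j`, `L = log X`.
PROOF.  `X^ε/4 < H ≤ P`, `P² < 2X`.  Case 1: `P^4 ≤ 2X`.  Let `k ≥ 1` be maximal with `P^(2k+2) ≤ 2X`; `P > X^ε/4` bounds it:
`k ≤ K = ⌈1/ε⌉` for large `X`.  The first bound for `T` gives `T ≤ 10 Ck X (X^ε/4)^(1-k) L^k / P` (`2^(j+2) + 1 ≤ 5 H`, `H^(1-k) ≤
(X^ε/4)^(1-k)`), and `P > (2X)^(1/(2k+4))`: `T ≤ C' L^K X^(1 - 1/(2k+4) - (k-1)ε)`, and
`1/(2k+4) + (k-1) ε ≥ √(2ε) - 3ε` because with `n = k+2`: `1/(2n) + n ε ≥ √(2ε)`.  `C' L^K ≤ X^(ε/2)` for large `X`.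
Case 2: `P^4 > 2X`.  First bound with `k = 0` (`P² ≤ 2X`): `T ≤ 10 C₀ H X/P`; second: `T ≤ C X L/(2H)`; so
`T² ≤ 10 C₀ C X² L/P ≤ C'' L X^(7/4)`, `T ≤ C''' L X^(7/8)`, and `7/8 ≤ 1 - √(2ε) + 3ε` for `0 < ε ≤ 1/100`
(`(1/8 + 3ε)² ≥ 2ε`). -/
def NB : Prop := ∀ ε : ℝ, 0 < ε → ε ≤ 1 / 100 → ∀ (Ck : ℕ → ℝ) (C : ℝ), (∀ k, 0 < Ck k) → 0 < C →
  ∃ X₀ : ℕ, ∀ X : ℕ, X₀ ≤ X → ∀ i j : ℕ, j ≤ i → 4 ^ i < 2 * X →
  (X : ℝ) ^ ε < 2 ^ (j + 2) → ∀ T : ℝ, 0 ≤ T →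
  (∀ k : ℕ, (2 ^ i) ^ (2 * k + 2) ≤ 2 * X →
    T ≤ (2 ^ (j + 2) + 1) * (2 * (Ck k * (X / 2 ^ i * (Real.log X / 2 ^ j) ^ k)))) →
  T ≤ C * (X * Real.log X / 2 ^ (j + 1)) →
  T ≤ (X : ℝ) ^ (1 - √(2 * ε) + 7 / 2 * ε)

/-- FA (part (A), 120 lines; uses `SMc`, `STc`).
PROOF.  `V₀` from `STc`.  The set for `X`, `H` is empty if `H ≥ X` (`v - u < v ≤ X`); let `H < X`.  If `H < 12`: at most
`X ≤ (12/log 2) X log X/H`.  Let `H ≥ 12`.  The `v ≤ V₀` in the set: if there is one then `H < V₀`, at most `V₀ ≤ V₀²/H` of them.  For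
`v > V₀`, `v ≥ 2` let `2^s < v ≤ 2^(s+1)`, `Y = 2^s < X`: `v ∈ Es Y H` (for `j < H ≤ v - u`: `v - j ∈ [u,v]`, a prime `q ∣ v - j` is
`≤ p`, `p² ≤ v ≤ 2Y`).  `s = 0` is impossible (`v - u ≥ 12`), so `Y ≥ 2`, and `|Es Y H| ≤ C Y log Y/H ≤ C 2^s log X/H`; sum over
`s` with `2^s < X`: `∑ 2^s ≤ 2X`. -/
def FAc : Prop := ∃ C : ℝ, 0 < C ∧ ∀ X H : ℕ, 2 ≤ X → 1 ≤ H →
  (Set.ncard {v : ℕ | v ≤ X ∧ ∃ u, LargestPrimeRepeated u v ∧ H ≤ v - u} : ℝ) ≤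
    C * (X * Real.log X / H)

def FA : Prop := SMc → STc → FAc

/-- FB (part (B), 200 lines; uses `KMc`, `SMc`, `CVc`, `NB`).
PROOF.  `Ck` from `KMc` (choose), `C` from `SMc`, `X₀` from `NB`.  For large `X` let
`Bad = {v ∈ Ioc X (2X) : ∃ u, LPR u v, v^ε < v - u}`; then `v - u > X^ε ≥ 12`, and `CVc` gives `i, j` with `j ≤ i`, `4^i < 2X`,
`X^ε < v - u < 2^(j+2)`.  For fixed `(i,j)` the number `T` of these `v` is at most `|Es X (2^(j+1))|` and at most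
`(2^(j+2) + 1)(|Mp| + |Mm|)` (each `m` serves `v ∈ [m, m + 2^(j+2)]`), so `T ≤ X^(1 - √(2ε) + 7ε/2)` by `NB`, `KMc`, `SMc`.
The number of pairs is at most `(log₂(2X) + 1)² ≤ X^(ε/4)`, so `|Bad| ≤ X^(1-√(2ε)+15ε/4)` for `X ≥ X₁`.  For `v ≤ Y`, `v > 2 X₁` take
`X = 2^s < v ≤ 2^(s+1)`: total at most `2X₁ + 1 + (log₂ Y + 1) Y^(1-√(2ε)+15ε/4) ≤ Y^(1-√(2ε)+4ε)` for large `Y`
(`1 - √(2ε) > 0`). -/
def FBc : Prop := ∀ ε : ℝ, 0 < ε → ε ≤ 1 / 100 → ∀ᶠ X : ℕ in atTop,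
  (Set.ncard {v : ℕ | v ≤ X ∧ ∃ u, LargestPrimeRepeated u v ∧ (v : ℝ) ^ ε < ((v - u : ℕ) : ℝ)} : ℝ) ≤
    (X : ℝ) ^ (1 - √(2 * ε) + 4 * ε)

def FB : Prop := KMc → SMc → CVc → NB → FBc

end Pool.Agent.Helper2.BI
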